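import Pool.Agent.helper88.T8.Spec
import Pool.Agent.helper11.T5.TR

/-!
# T8, row GE8: the position of `(m, g)`
-/

set_option autoImplicit false

namespace Pool.Agent.T8

open Finset NumberField Pool.Agent.helper3.FT Pool.Agent.helper47.RA Pool.Agent.T5 Pool.Agent.T6 Pool.Agent.T7
open scoped nonZeroDivisors

theorem GE8_pos (A M δ : ℝ) (hM : 0 < M) (hδ : 0 ≤ δ) (h : A ^ 2 = M ^ 2 - δ) (hA : 0 ≤ A) :
    |A - M| ≤ δ / M := by
  have h1 : A ≤ M := (le_abs_self A).trans (abs_le_of_sq_le_sq (by linarith) hM.le)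
  rw [abs_sub_comm, abs_of_nonneg (by linarith), le_div_iff₀ hM]
  nlinarith [mul_nonneg (sub_nonneg.mpr h1) hA]

theorem GE8_sgn (A M δ : ℝ) (hM : 0 < M) (hδ : 0 ≤ δ) (h : A ^ 2 = M ^ 2 - δ) :
    ∃ s : ℝ, (s = 1 ∨ s = -1) ∧ |A - s * M| ≤ δ / M := by
  rcases le_total 0 A with hA | hA
  · exact ⟨1, Or.inl rfl, by rw [one_mul]; exact GE8_pos A M δ hM hδ h hA⟩
  · refine ⟨-1, Or.inr rfl, ?_⟩
    have h1 := GE8_pos (-A) M δ hM hδ (by rw [neg_sq]; exact h) (by linarith)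
    have h2 : A - -1 * M = -(-A - M) := by ring
    rw [h2, abs_neg]
    exact h1

theorem GE8_real (n k m g Z L Δ S P : ℝ) (hn : 0 < n) (hk : 0 < k) (hS : 0 < S) (hP : 0 < P)
    (hZ : Z = S ^ 2) (hL : L = P ^ 2) (hΔ : 0 < Δ)
    (hA : (Z * g + L * m) ^ 2 = (2 * S * L * n) ^ 2 - (n * k) ^ 2 * Δ)
    (hB : (Z * g - L * m) ^ 2 = (2 * Z * P * k) ^ 2 - (n * k) ^ 2 * Δ) :
    ∃ s₁ s₂ : ℝ, (s₁ = 1 ∨ s₁ = -1) ∧ (s₂ = 1 ∨ s₂ = -1) ∧
      |m - (s₁ * (S * n) - s₂ * (Z / P * k))| ≤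
        n * k * Δ / (4 * L) * (k / (S * L) + n / (Z * P)) ∧
      |g - (s₁ * (L / S * n) + s₂ * (P * k))| ≤
        n * k * Δ / (4 * Z) * (k / (S * L) + n / (Z * P)) := by
  have hZ0 : 0 < Z := by rw [hZ]; positivity
  have hL0 : 0 < L := by rw [hL]; positivity
  obtain ⟨s₁, h1, h2⟩ := GE8_sgn _ (2 * S * L * n) ((n * k) ^ 2 * Δ) (by positivity)
    (by positivity) hA
  obtain ⟨s₂, h3, h4⟩ := GE8_sgn _ (2 * Z * P * k) ((n * k) ^ 2 * Δ) (by positivity)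
    (by positivity) hB
  refine ⟨s₁, s₂, h1, h3, ?_, ?_⟩
  · have e1 : m - (s₁ * (S * n) - s₂ * (Z / P * k)) =
        ((Z * g + L * m - s₁ * (2 * S * L * n)) - (Z * g - L * m - s₂ * (2 * Z * P * k))) /
          (2 * L) := by
      have : Z / P * k = 2 * Z * P * k / (2 * L) := by
        rw [hL]; field_simp
      rw [this]
      field_simp
      ring
    have e2 : n * k * Δ / (4 * L) * (k / (S * L) + n / (Z * P)) =
        ((n * k) ^ 2 * Δ / (2 * S * L * n) + (n * k) ^ 2 * Δ / (2 * Z * P * k)) / (2 * L) := by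
      field_simp
      ring
    rw [e1, e2, abs_div, abs_of_pos (by positivity : (0 : ℝ) < 2 * L)]
    exact div_le_div_of_nonneg_right ((abs_sub _ _).trans (add_le_add h2 h4)) (by positivity)
  · have e1 : g - (s₁ * (L / S * n) + s₂ * (P * k)) =
        ((Z * g + L * m - s₁ * (2 * S * L * n)) + (Z * g - L * m - s₂ * (2 * Z * P * k))) /
          (2 * Z) := by
      have : L / S * n = 2 * S * L * n / (2 * Z) := by
        rw [hZ]; field_simp
      rw [this]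
      field_simp
      ring
    have e2 : n * k * Δ / (4 * Z) * (k / (S * L) + n / (Z * P)) =
        ((n * k) ^ 2 * Δ / (2 * S * L * n) + (n * k) ^ 2 * Δ / (2 * Z * P * k)) / (2 * Z) := by
      field_simp
      ring
    rw [e1, e2, abs_div, abs_of_pos (by positivity : (0 : ℝ) < 2 * Z)]
    exact div_le_div_of_nonneg_right ((abs_add_le _ _).trans (add_le_add h2 h4)) (by positivity)

theorem GE8 : GE8_stmt := by
  intro t ht hZ hL hd
  obtain ⟨-, -, -, -, hB, hA, -⟩ := TR t ht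
  have hB' := congrArg (Int.cast : ℤ → ℝ) hB
  have hA' := congrArg (Int.cast : ℤ → ℝ) hA
  push_cast at hA' hB'
  have hZr : (0 : ℝ) < (t.2.2.2 : ℝ) := by exact_mod_cast hZ
  have hLr : (0 : ℝ) < (lam t : ℝ) := by exact_mod_cast hL
  have hdr : (0 : ℝ) < -(dis t : ℝ) := by
    have : (dis t : ℝ) < 0 := by exact_mod_cast hd
    linarith
  have hs1 : √(t.2.2.2 : ℝ) ^ 2 = (t.2.2.2 : ℝ) := Real.sq_sqrt hZr.le
  have hs2 : √(lam t : ℝ) ^ 2 = (lam t : ℝ) := Real.sq_sqrt hLr.le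
  refine GE8_real t.1.1 t.1.2 t.2.1 t.2.2.1 t.2.2.2 (lam t) (-(dis t : ℝ)) (√(t.2.2.2 : ℝ))
    (√(lam t : ℝ)) ?_ ?_ (Real.sqrt_pos.mpr hZr) (Real.sqrt_pos.mpr hLr) hs1.symm hs2.symm hdr
    ?_ ?_
  · exact_mod_cast ht.n1
  · exact_mod_cast ht.k1
  · rw [mul_pow, mul_pow, mul_pow, hs1]
    linarith [hA']
  · rw [mul_pow, mul_pow, mul_pow, hs2]
    linarith [hB']

end Pool.Agent.T8
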